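import Pool.Agent.N110.CC.GStm
import Pool.Agent.N110.NV.Cl
import Pool.Agent.N492.PA.Mat

/-!
Project CC (helper110), part EFF (helper40): the effective cone and its closure.
-/

set_option autoImplicit false

open FF Pool.Agent.W602.GT Pool.Agent.Y172 Pool.Agent.R887
open Pool.Agent.Y167 (cone)
open Pool.Agent.N110 Pool.Agent.N110.PA Pool.Agent.N110.NV Pool.Agent.N492.PA
open Pool.Agent.N110.CC

namespace Pool.Agent.N40.CC

section coneOf

variable {ρ : ℕ} {A : Set (Fin ρ → ℝ)}

theorem zero_mem' : (0 : Fin ρ → ℝ) ∈ coneOf A :=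
  ⟨∅, by simp, fun _ => 0, fun _ => le_rfl, by simp⟩

theorem sub_coneOf {x : Fin ρ → ℝ} (hx : x ∈ A) : x ∈ coneOf A :=
  ⟨{x}, by simpa using hx, fun _ => 1, fun _ => zero_le_one, by simp⟩

theorem smul_mem' {x : Fin ρ → ℝ} (hx : x ∈ coneOf A) {r : ℝ} (hr : 0 ≤ r) : r • x ∈ coneOf A := by
  obtain ⟨S, hS, a, ha, rfl⟩ := hx
  refine ⟨S, hS, fun z => r * a z, fun z => mul_nonneg hr (ha z), ?_⟩
  rw [Finset.smul_sum]
  exact Finset.sum_congr rfl fun z _ => by rw [mul_smul]

theorem add_mem' {x z : Fin ρ → ℝ} (hx : x ∈ coneOf A) (hz : z ∈ coneOf A) :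
    x + z ∈ coneOf A := by
  classical
  obtain ⟨S, hS, a, ha, rfl⟩ := hx
  obtain ⟨T, hT, b, hb, rfl⟩ := hz
  refine ⟨S ∪ T, ?_, fun z => (if z ∈ S then a z else 0) + (if z ∈ T then b z else 0),
    fun z => ?_, ?_⟩
  · rw [Finset.coe_union]
    exact Set.union_subset hS hT
  · have h1 : 0 ≤ if z ∈ S then a z else 0 := by
      split_ifs
      · exact ha z
      · exact le_rfl
    have h2 : 0 ≤ if z ∈ T then b z else 0 := by
      split_ifs
      · exact hb z
      · exact le_rfl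
    exact add_nonneg h1 h2
  · simp only [add_smul, Finset.sum_add_distrib, ite_smul, zero_smul]
    rw [Finset.sum_ite_mem, Finset.sum_ite_mem, Finset.union_inter_cancel_left,
      Finset.union_inter_cancel_right]

theorem sum_mem' {ι : Type*} (T : Finset ι) {f : ι → Fin ρ → ℝ} (hf : ∀ i ∈ T, f i ∈ coneOf A) :
    ∑ i ∈ T, f i ∈ coneOf A :=
  Finset.sum_induction f (· ∈ coneOf A) (fun _ _ => add_mem') zero_mem' hf

theorem coneOf_sub {C : Set (Fin ρ → ℝ)} (h0 : (0 : Fin ρ → ℝ) ∈ C)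
    (ha : ∀ x ∈ C, ∀ z ∈ C, x + z ∈ C) (hs : ∀ r : ℝ, 0 ≤ r → ∀ x ∈ C, r • x ∈ C) (hA : A ⊆ C) :
    coneOf A ⊆ C := by
  rintro _ ⟨S, hS, a, hn, rfl⟩
  exact Finset.sum_induction _ (· ∈ C) (fun x z hx hz => ha x hx z hz) h0
    fun z hz => hs _ (hn z) _ (hA (hS hz))

theorem convex_coneOf : Convex ℝ (coneOf A) := by
  intro x hx z hz a b ha hb _
  exact add_mem' (smul_mem' hx ha) (smul_mem' hz hb)

end coneOf

section

variable {K : Type} [Field K] [Algebra ℂ K] {N ρ : ℕ} {y : Fin (N + 1) → K}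
  {c : Place ℂ K → Fin ρ → ℤ}

theorem zero_eff : (0 : Fin ρ → ℝ) ∈ effSet y (cQ c) := by
  refine ⟨fun _ => 0, ⟨fun _ _ => le_rfl, ?_⟩, fun i => ?_⟩
  · refine Set.finite_empty.subset ?_
    rintro P ⟨_, h⟩
    exact h rfl
  · rw [cls_zero]
    simp

theorem rcl_eff {P : Place ℂ K} (hP : IsPrimeDivisor y P) : rcl c P ∈ effSet y (cQ c) := by
  classical
  have h1 := eff_mem (c := cQ c) (single_eff (⟨P, hP⟩ : QQ y))
  rw [cls_single hP] at h1
  have h2 : toR ((1 : ℚ) • cQ c P) = rcl c P := by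
    funext i
    simp [toR, cQ, rcl]
  rwa [h2] at h1

theorem eff_sub : effSet y (cQ c) ⊆ effCone y c := by
  classical
  rintro z ⟨D, hD, hz⟩
  have h1 : cls y (cQ c) D = ∑ P ∈ hD.2.toFinset, D P • cQ c P := by
    refine cls_finset (fun P hP => ?_) (fun P hP h => ?_)
    · exact ((Set.Finite.mem_toFinset _).1 hP).1
    · by_contra h0
      exact h ((Set.Finite.mem_toFinset _).2 ⟨hP, h0⟩)
  have h2 : z = ∑ P ∈ hD.2.toFinset, ((D P : ℚ) : ℝ) • rcl c P := by
    funext i
    rw [hz i, h1, Finset.sum_apply, Finset.sum_apply]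
    push_cast
    refine Finset.sum_congr rfl fun P _ => ?_
    simp [cQ, rcl]
  rw [h2]
  refine sum_mem' _ fun P hP => ?_
  have hP1 := ((Set.Finite.mem_toFinset _).1 hP).1
  have h9 : rcl c P ∈ effCone y c := sub_coneOf ⟨P, hP1, rfl⟩
  have h10 : (0 : ℝ) ≤ ((D P : ℚ) : ℝ) := by exact_mod_cast hD.1 P hP1
  exact smul_mem' h9 h10

theorem span_top (hc : PicardBasis y c) : vectorSpan ℝ (effCone y c) = ⊤ := by
  have h0 : (0 : Fin ρ → ℝ) ∈ effCone y c := zero_mem'
  have h1 : ∀ z : Fin ρ → ℤ, (fun i => (z i : ℝ)) ∈ vectorSpan ℝ (effCone y c) := by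
    intro z
    have hz := hc.generate z
    induction hz using AddSubgroup.closure_induction with
    | mem z hz =>
      obtain ⟨P, hP, rfl⟩ := hz
      have h2 : rcl c P ∈ effCone y c := sub_coneOf ⟨P, hP, rfl⟩
      have h3 := vsub_mem_vectorSpan ℝ h2 h0
      rw [vsub_eq_sub, sub_zero] at h3
      exact h3
    | zero =>
      have : (fun i : Fin ρ => (((0 : Fin ρ → ℤ) i : ℤ) : ℝ)) = 0 := by
        funext i
        simp
      rw [this]
      exact Submodule.zero_mem _
    | add x z _ _ hx hz =>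
      have : (fun i : Fin ρ => (((x + z) i : ℤ) : ℝ)) = (fun i => (x i : ℝ)) + fun i => (z i : ℝ) := by
        funext i
        simp
      rw [this]
      exact Submodule.add_mem _ hx hz
    | neg x _ hx =>
      have : (fun i : Fin ρ => (((-x) i : ℤ) : ℝ)) = -(fun i => (x i : ℝ)) := by
        funext i
        simp
      rw [this]
      exact Submodule.neg_mem _ hx
  rw [eq_top_iff]
  intro x _
  have h2 : x = ∑ j, x j • (fun i => (((Pi.single j 1 : Fin ρ → ℤ) i : ℤ) : ℝ)) := by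
    funext i
    rw [Finset.sum_apply]
    simp [Pi.single_apply]
  rw [h2]
  exact Submodule.sum_mem _ fun j _ => Submodule.smul_mem _ _ (h1 _)

theorem int_nonempty (hc : PicardBasis y c) : (interior (effCone y c)).Nonempty := by
  have h0 : (effCone y c).Nonempty := ⟨0, zero_mem'⟩
  have hconv : Convex ℝ (effCone y c) := convex_coneOf
  rw [hconv.interior_nonempty_iff_affineSpan_eq_top,
    AffineSubspace.affineSpan_eq_top_iff_vectorSpan_eq_top_of_nonempty ℝ _ _ h0]
  exact span_top hc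

end

theorem leafEFF : S_EFF := by
  intro K _ _ N ρ y _ c hc
  constructor
  · refine coneOf_sub (subset_closure zero_eff) (fun x hx z hz => clo_add hx hz)
      (fun r hr x hx => clo_smul hx hr) ?_
    rintro _ ⟨P, hP, rfl⟩
    exact subset_closure (rcl_eff hP)
  · have hconv : Convex ℝ (effCone y c) := convex_coneOf
    have h1 := hconv.interior_closure_eq_interior_of_nonempty_interior (int_nonempty hc)
    calc interior (closure (effSet y (cQ c))) ⊆ interior (closure (effCone y c)) :=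
          interior_mono (closure_mono eff_sub)
      _ = interior (effCone y c) := h1
      _ ⊆ effCone y c := interior_subset

end Pool.Agent.N40.CC
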